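import Pool.Agent.Y503.RB.Stm

/-!
# Three small facts: cones over surfaces are null sets, unit normal vectors, behaviour at the boundary
-/

set_option autoImplicit false

namespace Pool.Agent.Y977.RB

open Pool.Agent.Y503.RB
open scoped ContDiff RealInnerProductSpace ENNReal
open MeasureTheory Set

/-- the first two coordinates as a continuous linear map -/
noncomputable def zcL : E4 →L[ℝ] ℂ :=
  (Complex.ofRealCLM.comp (EuclideanSpace.proj (0 : Fin 4))) +
    (Complex.I • Complex.ofRealCLM.comp (EuclideanSpace.proj (1 : Fin 4)))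

theorem zcL_apply (x : E4) : zcL x = zc x := by
  unfold zcL zc
  apply Complex.ext <;> simp

theorem null : St_NULL := by
  intro φ W hW hφ
  have hd : ∀ z ∈ W, DifferentiableAt ℝ φ z := fun z hz =>
    (hφ.contDiffAt (hW.mem_nhds hz)).differentiableAt (by simp)
  let F : E4 → E4 := fun x => x 3 • φ (zc x)
  let s : Set E4 := {x | zc x ∈ W}
  have hzc : (zc : E4 → ℂ) = fun x => zcL x := funext fun x => (zcL_apply x).symm
  have hF : ∀ x ∈ s, DifferentiableAt ℝ F x := by
    intro x hx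
    have h1 : DifferentiableAt ℝ (fun x : E4 => φ (zc x)) x := by
      have h2 : DifferentiableAt ℝ (zc : E4 → ℂ) x := by
        rw [hzc]; exact zcL.differentiableAt
      exact (hd _ hx).comp x h2
    have h3 : DifferentiableAt ℝ (fun x : E4 => x 3) x :=
      (EuclideanSpace.proj (𝕜 := ℝ) (3 : Fin 4) : E4 →L[ℝ] ℝ).differentiableAt
    exact h3.smul h1
  have himg : {y : E4 | ∃ r : ℝ, ∃ z ∈ W, y = r • φ z} = F '' s := by
    ext y
    constructor
    · rintro ⟨r, z, hz, rfl⟩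
      refine ⟨!₂[z.re, z.im, 0, r], ?_, ?_⟩
      · show zc _ ∈ W
        have : zc !₂[z.re, z.im, 0, r] = z := by
          unfold zc
          apply Complex.ext <;> simp
        rw [this]; exact hz
      · show (!₂[z.re, z.im, 0, r] : E4) 3 • φ (zc !₂[z.re, z.im, 0, r]) = r • φ z
        have : zc !₂[z.re, z.im, 0, r] = z := by
          unfold zc
          apply Complex.ext <;> simp
        rw [this]
        simp
    · rintro ⟨x, hx, rfl⟩
      exact ⟨x 3, zc x, hx, rfl⟩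
  rw [himg]
  refine addHaar_image_eq_zero_of_det_fderivWithin_eq_zero volume
    (f' := fun x => fderiv ℝ F x) (fun x hx => (hF x hx).hasFDerivAt.hasFDerivWithinAt) fun x hx => ?_
  -- the derivative kills the third basis vector
  set e : E4 := EuclideanSpace.single 2 1 with he
  have he0 : e ≠ 0 := by
    intro h
    have := congrArg (fun v : E4 => v 2) h
    simp [he] at this
  have hk : fderiv ℝ F x e = 0 := by
    rw [← (hF x hx).lineDeriv_eq_fderiv]
    have h1 : ∀ t : ℝ, F (x + t • e) = F x := by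
      intro t
      show (x + t • e) 3 • φ (zc (x + t • e)) = x 3 • φ (zc x)
      have h2 : zc (x + t • e) = zc x := by
        unfold zc
        apply Complex.ext <;> simp [he]
      have h3 : (x + t • e) 3 = x 3 := by simp [he]
      rw [h2, h3]
    unfold lineDeriv
    simp only [h1]
    exact deriv_const _ _
  show LinearMap.det ((fderiv ℝ F x : E4 →L[ℝ] E4) : E4 →ₗ[ℝ] E4) = 0
  rw [LinearMap.det_eq_zero_iff_ker_ne_bot]
  intro hbot
  apply he0
  have : e ∈ LinearMap.ker ((fderiv ℝ F x : E4 →L[ℝ] E4) : E4 →ₗ[ℝ] E4) := hk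
  rw [hbot] at this
  exact this

theorem exists_angle {a b : ℝ} (h : a ^ 2 + b ^ 2 = 1) :
    ∃ θ ∈ Ico 0 (2 * Real.pi), Real.cos θ = a ∧ Real.sin θ = b := by
  set w : ℂ := ⟨a, b⟩ with hw
  have hn : ‖w‖ = 1 := by
    have : ‖w‖ ^ 2 = 1 := by
      rw [← Complex.normSq_eq_norm_sq, Complex.normSq_apply, hw]
      simp only
      linarith
    have h2 : 0 ≤ ‖w‖ := norm_nonneg _
    nlinarith
  have hw0 : w ≠ 0 := by
    intro h0
    rw [h0, norm_zero] at hn
    exact zero_ne_one hn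
  have hc : Real.cos (Complex.arg w) = a := by
    rw [Complex.cos_arg hw0, hn, div_one]
  have hs : Real.sin (Complex.arg w) = b := by
    rw [Complex.sin_arg, hn, div_one]
  have hmem := Complex.arg_mem_Ioc w
  have hpi := Real.pi_pos
  by_cases h0 : 0 ≤ Complex.arg w
  · exact ⟨Complex.arg w, ⟨h0, by linarith [hmem.2]⟩, hc, hs⟩
  · push Not at h0
    refine ⟨Complex.arg w + 2 * Real.pi, ⟨by linarith [hmem.1], by linarith⟩, ?_, ?_⟩
    · rw [Real.cos_add_two_pi, hc]
    · rw [Real.sin_add_two_pi, hs]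

theorem frame : St_FRAME := by
  intro φ N₁ N₂ U hp hfr z hz n hn hno
  have u1 := hfr.unit₁ z hz
  have u2 := hfr.unit₂ z hz
  have o := hfr.orth z hz
  have o1 := hfr.norm₁ z hz
  have o2 := hfr.norm₂ z hz
  have i11 : ⟪N₁ z, N₁ z⟫ = (1 : ℝ) := by rw [real_inner_self_eq_norm_sq, u1]; norm_num
  have i22 : ⟪N₂ z, N₂ z⟫ = (1 : ℝ) := by rw [real_inner_self_eq_norm_sq, u2]; norm_num
  have o' : ⟪N₂ z, N₁ z⟫ = (0 : ℝ) := by rw [real_inner_comm]; exact o
  set e : Fin 4 → E4 := ![d1 φ 1 z, d1 φ Complex.I z, N₁ z, N₂ z] with he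
  have hli : LinearIndependent ℝ e := by
    rw [Fintype.linearIndependent_iff]
    intro g hg
    rw [Fin.sum_univ_four] at hg
    simp only [he, Matrix.cons_val_zero, Matrix.cons_val_one, Matrix.cons_val] at hg
    have h2 : g 2 = 0 := by
      have := congrArg (fun v => ⟪N₁ z, v⟫) hg
      simp only [inner_add_right, inner_smul_right, o1, i11, o, inner_zero_right] at this
      linarith
    have h3 : g 3 = 0 := by
      have := congrArg (fun v => ⟪N₂ z, v⟫) hg
      simp only [inner_add_right, inner_smul_right, o2, i22, o', inner_zero_right] at this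
      linarith
    rw [h2, h3, zero_smul, zero_smul, add_zero, add_zero] at hg
    have h4 : fderiv ℝ φ z (g 0 • (1 : ℂ) + g 1 • Complex.I) = 0 := by
      rw [map_add, map_smul, map_smul]
      exact hg
    have h5 : g 0 • (1 : ℂ) + g 1 • Complex.I = 0 :=
      hp.imm z hz (h4.trans (map_zero _).symm)
    have h6 := congrArg Complex.re h5
    have h7 := congrArg Complex.im h5
    simp at h6 h7
    intro i
    fin_cases i
    · exact h6
    · exact h7
    · exact h2
    · exact h3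
  have hspan := hli.span_eq_top_of_card_eq_finrank' (by simp)
  obtain ⟨a, ha⟩ : ∃ a : ℝ, a = ⟪n, N₁ z⟫ := ⟨_, rfl⟩
  obtain ⟨b, hb⟩ : ∃ b : ℝ, b = ⟪n, N₂ z⟫ := ⟨_, rfl⟩
  set m : E4 := n - a • N₁ z - b • N₂ z with hm
  have hmo : ∀ x ∈ Submodule.span ℝ (Set.range e), ⟪m, x⟫ = (0 : ℝ) := by
    intro x hx
    induction hx using Submodule.span_induction with
    | mem x hx =>
      obtain ⟨i, rfl⟩ := hx
      fin_cases i
      · show ⟪m, d1 φ 1 z⟫ = (0 : ℝ)
        rw [hm, inner_sub_left, inner_sub_left, inner_smul_left, inner_smul_left, hno, o1, o2]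
        simp
      · show ⟪m, d1 φ Complex.I z⟫ = (0 : ℝ)
        rw [hm, inner_sub_left, inner_sub_left, inner_smul_left, inner_smul_left, hno, o1, o2]
        simp
      · show ⟪m, N₁ z⟫ = (0 : ℝ)
        rw [hm, inner_sub_left, inner_sub_left, inner_smul_left, inner_smul_left, i11, o', ← ha]
        simp
      · show ⟪m, N₂ z⟫ = (0 : ℝ)
        rw [hm, inner_sub_left, inner_sub_left, inner_smul_left, inner_smul_left, i22, o, ← hb]
        simp
    | zero => exact inner_zero_right _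
    | add x y _ _ hx hy => rw [inner_add_right, hx, hy, add_zero]
    | smul c x _ hx => rw [inner_smul_right, hx, mul_zero]
  have hm0 : m = 0 := by
    have h1 := hmo m (by rw [hspan]; exact Submodule.mem_top)
    exact inner_self_eq_zero.1 h1
  have hnab : n = a • N₁ z + b • N₂ z := by
    have : n = m + (a • N₁ z + b • N₂ z) := by rw [hm]; abel
    rw [this, hm0, zero_add]
  have hab : a ^ 2 + b ^ 2 = 1 := by
    have h1 : ⟪n, n⟫ = (1 : ℝ) := by rw [real_inner_self_eq_norm_sq, hn]; norm_num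
    rw [hnab] at h1
    simp only [inner_add_left, inner_add_right, inner_smul_left, inner_smul_right, i11, i22, o,
      o'] at h1
    simp at h1
    linarith
  obtain ⟨θ, hθ, hc, hs⟩ := exists_angle hab
  refine ⟨θ, hθ, ?_⟩
  unfold nor
  rw [hc, hs]
  exact hnab

/-- the norm of the inversion of a point of the hyperplane orthogonal to `ξ` -/
theorem norm_inv (ξ w : E4) (hξ : ‖ξ‖ = 1) (hw : ⟪w, ξ⟫ = (0 : ℝ)) : ‖inv ξ w‖ = 1 := by
  have hξξ : ⟪ξ, ξ⟫ = (1 : ℝ) := by rw [real_inner_self_eq_norm_sq, hξ]; norm_num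
  have hne : w - ξ ≠ 0 := by
    intro h
    rw [sub_eq_zero] at h
    rw [h, hξξ] at hw
    exact one_ne_zero hw
  have hpos : 0 < ‖w - ξ‖ := norm_pos_iff.2 hne
  have h1 : ⟪ξ, w - ξ⟫ = (-1 : ℝ) := by
    rw [inner_sub_right, hξξ, real_inner_comm, hw]
    norm_num
  have h2 : ‖inv ξ w‖ ^ 2 = 1 := by
    unfold inv
    rw [norm_add_sq_real, inner_smul_right, h1, norm_smul, hξ]
    rw [Real.norm_eq_abs, abs_of_nonneg (by positivity)]
    field_simp
    ring
  have h3 : 0 ≤ ‖inv ξ w‖ := norm_nonneg _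
  nlinarith

theorem norm_push (ξ x : E4) (hξ : ‖ξ‖ = 1) (hx : x ≠ ξ) : ‖push ξ x‖ = Real.exp (-ht ξ x) := by
  have hξξ : ⟪ξ, ξ⟫ = (1 : ℝ) := by rw [real_inner_self_eq_norm_sq, hξ]; norm_num
  have hpos : 0 < ‖x - ξ‖ := norm_pos_iff.2 (sub_ne_zero.2 hx)
  have h1 : ‖x - ξ‖ ^ 2 = ‖x‖ ^ 2 - 2 * ⟪x, ξ⟫ + 1 := by
    rw [norm_sub_sq_real, hξ]; ring
  have h2 : ⟪inv ξ x + ht ξ x • ξ, ξ⟫ = (0 : ℝ) := by
    unfold inv ht
    rw [inner_add_left, inner_add_left, inner_smul_left, inner_smul_left, hξξ, inner_sub_left, hξξ]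
    simp only [conj_trivial]
    rw [div_mul_eq_mul_div, mul_one]
    have h3 : ‖x - ξ‖ ^ 2 ≠ 0 := by positivity
    field_simp
    linarith
  unfold push
  rw [norm_smul, norm_inv ξ _ hξ h2, mul_one, Real.norm_eq_abs, abs_of_pos (Real.exp_pos _)]

theorem trans : St_TRANS := by
  intro ξ φ z v hξ hφ hz hne hpos
  have hd : DifferentiableAt ℝ φ z := hφ.differentiableAt (by simp)
  set N : ℂ → ℝ := fun w => ‖φ w‖ ^ 2 with hN
  set Dn : ℂ → ℝ := fun w => ‖φ w - ξ‖ ^ 2 with hDn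
  have hNd : DifferentiableAt ℝ N z := hd.norm_sq ℝ
  have hDd : DifferentiableAt ℝ Dn z := (hd.sub_const ξ).norm_sq ℝ
  have hDz : 0 < Dn z := by
    have : 0 < ‖φ z - ξ‖ := norm_pos_iff.2 (sub_ne_zero.2 hne)
    rw [hDn]
    positivity
  have hNz : N z = 1 := by rw [hN]; simp only; rw [hz]; norm_num
  have hev : (fun w => ‖push ξ (φ w)‖ ^ 2) =ᶠ[nhds z]
      fun w => Real.exp (-((1 - N w) * (Dn w)⁻¹)) * Real.exp (-((1 - N w) * (Dn w)⁻¹)) := by
    have h1 : ∀ᶠ w in nhds z, φ w ≠ ξ := hd.continuousAt.eventually_ne hne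
    filter_upwards [h1] with w hw
    rw [norm_push ξ _ hξ hw, sq]
    rfl
  rw [hev.fderiv_eq]
  have h1 : HasFDerivAt (fun w => (1 - N w) * (Dn w)⁻¹)
      ((1 - N z) • fderiv ℝ (fun w => (Dn w)⁻¹) z + (Dn z)⁻¹ • (-fderiv ℝ N z)) z :=
    (hNd.hasFDerivAt.const_sub 1).mul (hDd.inv hDz.ne').hasFDerivAt
  obtain ⟨L, hL⟩ : ∃ L, L = (1 - N z) • fderiv ℝ (fun w => (Dn w)⁻¹) z + (Dn z)⁻¹ • (-fderiv ℝ N z) :=
    ⟨_, rfl⟩
  rw [← hL] at h1
  have h2 := h1.neg.exp
  have h3 : HasFDerivAt (fun w => Real.exp (-((1 - N w) * (Dn w)⁻¹)) * Real.exp (-((1 - N w) * (Dn w)⁻¹)))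
      (Real.exp (-((1 - N z) * (Dn z)⁻¹)) • (Real.exp (-((1 - N z) * (Dn z)⁻¹)) • (-L)) +
        Real.exp (-((1 - N z) * (Dn z)⁻¹)) • (Real.exp (-((1 - N z) * (Dn z)⁻¹)) • (-L))) z :=
    h2.mul h2
  rw [h3.fderiv]
  simp only [hNz, sub_self, zero_mul, neg_zero, Real.exp_zero, one_smul]
  rw [hNz, sub_self, zero_smul, zero_add] at hL
  rw [hL]
  have h4 : (-((Dn z)⁻¹ • (-fderiv ℝ N z)) + -((Dn z)⁻¹ • (-fderiv ℝ N z))) v =
      2 * ((Dn z)⁻¹ * fderiv ℝ N z v) := by
    simp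
    ring
  rw [h4]
  have h5 : 0 < fderiv ℝ N z v := hpos
  positivity

end Pool.Agent.Y977.RB
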